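import Pool.Agent.K3h92.Hz.Stm

/-!
# Coxeter elements of type `B` act transitively and are conjugate
-/

set_option autoImplicit false

namespace Pool.Agent.K3h48.Hz

open Equiv Pool.Agent.K3h92.Hz

theorem isB_one (n : ℕ) : IsB n 1 := ⟨fun _ => rfl, fun _ _ => rfl⟩

theorem isB_mul {n : ℕ} {f g : Perm ℤ} (hf : IsB n f) (hg : IsB n g) : IsB n (f * g) :=
  ⟨fun x => by simp [Perm.mul_apply, hg.1, hf.1], fun x hx => by
    simp [Perm.mul_apply, hg.2 x hx, hf.2 x hx]⟩

theorem isB_inv {n : ℕ} {f : Perm ℤ} (hf : IsB n f) : IsB n f⁻¹ := by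
  refine ⟨fun x => ?_, fun x hx => ?_⟩
  · rw [Perm.inv_eq_iff_eq, hf.1]
    simp
  · rw [Perm.inv_eq_iff_eq, hf.2 x hx]

theorem isB_mono {m n : ℕ} (h : m ≤ n) {f : Perm ℤ} (hf : IsB m f) : IsB n f :=
  ⟨hf.1, fun x hx => hf.2 x (lt_of_le_of_lt (by exact_mod_cast h) hx)⟩

theorem nd_apply (a b x : ℤ) (ha : 0 < a) (hb : 0 < b) : nd a b x =
    if x = a then b else if x = b then a else if x = -a then -b else if x = -b then -a else x := by
  simp only [nd, Perm.mul_apply, swap_apply_def]
  split_ifs <;> omega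

theorem df_apply (a x : ℤ) : df a x = if x = a then -a else if x = -a then a else x := by
  simp only [df, swap_apply_def]

theorem isB_sg (i : ℕ) : IsB (i + 1) (sg i) := by
  unfold sg
  by_cases hi : i = 0
  · subst hi
    simp only [if_true]
    refine ⟨fun x => ?_, fun x hx => ?_⟩
    · simp only [df_apply]
      split_ifs <;> omega
    · simp only [df_apply]
      have := abs_cases x
      push_cast at hx
      split_ifs <;> omega
  · simp only [hi, if_false]
    have h1 : (0 : ℤ) < (i : ℤ) := by omega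
    have h2 : (0 : ℤ) < (i : ℤ) + 1 := by omega
    refine ⟨fun x => ?_, fun x hx => ?_⟩
    · simp only [nd_apply _ _ _ h1 h2]
      split_ifs <;> omega
    · simp only [nd_apply _ _ _ h1 h2]
      have := abs_cases x
      push_cast at hx
      split_ifs <;> omega

theorem isB_prod {n : ℕ} {l : List ℕ} (h : ∀ i ∈ l, i < n) : IsB n (l.map sg).prod := by
  induction l with
  | nil => exact isB_one n
  | cons i l ih =>
    simp only [List.map_cons, List.prod_cons]
    exact isB_mul (isB_mono (h i (by simp)) (isB_sg i)) (ih fun j hj => h j (by simp [hj]))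

/-- elements of `B_n` permute `±1, ..., ±n` -/
theorem isB_abs {n : ℕ} {f : Perm ℤ} (hf : IsB n f) {x : ℤ} (h1 : 1 ≤ |x|) (h2 : |x| ≤ n) :
    1 ≤ |f x| ∧ |f x| ≤ n := by
  constructor
  · have h1' : x ≠ 0 := by
      rintro rfl
      simp at h1
    refine Int.one_le_abs ?_
    intro h
    have h0 : f 0 = 0 := by
      have := hf.1 0
      simp only [neg_zero] at this
      omega
    exact h1' (f.injective (h.trans h0.symm))
  · by_contra hc
    push Not at hc
    have := hf.2 _ hc
    have := f.injective this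
    rw [this] at hc
    omega

theorem sg_comm {n : ℕ} {f : Perm ℤ} {m : ℕ} (hf : IsB m f) (hm : m < n) :
    f * sg n = sg n * f := by
  have hn : n ≠ 0 := by omega
  have e1 : f (n : ℤ) = n := hf.2 _ (by rw [abs_of_nonneg (by positivity)]; exact_mod_cast hm)
  have e2 : f ((n : ℤ) + 1) = (n : ℤ) + 1 := hf.2 _ (by rw [abs_of_nonneg (by positivity)]; omega)
  have e3 : f (-(n : ℤ)) = -(n : ℤ) := by rw [hf.1, e1]
  have e4 : f (-((n : ℤ) + 1)) = -((n : ℤ) + 1) := by rw [hf.1, e2]
  simp only [sg, hn, if_false, nd]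
  rw [← mul_assoc, mul_swap_eq_swap_mul f, e1, e2, mul_assoc, mul_swap_eq_swap_mul f, e3, e4,
    mul_assoc]

theorem sg_comm' {n : ℕ} {l : List ℕ} (h : ∀ i ∈ l, i + 2 ≤ n) :
    (l.map sg).prod * sg n = sg n * (l.map sg).prod := by
  rcases Nat.lt_or_ge n 2 with hn | hn
  · have : l = [] := by
      rw [List.eq_nil_iff_forall_not_mem]
      intro i hi
      have := h i hi
      omega
    subst this
    simp
  · exact sg_comm (m := n - 1) (isB_prod fun i hi => by have := h i hi; omega) (by omega)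

/-- shape of a Coxeter element of `B_{n+1}` -/
theorem shape {n : ℕ} (hn : 1 ≤ n) {c : Perm ℤ} (h : IsCox (n + 1) c) :
    ∃ z, IsCox n z ∧ (c = z * sg n ∨ c = sg n * z) := by
  obtain ⟨l, hl, rfl⟩ := h
  have hmem : n ∈ l := hl.mem_iff.2 (by simp)
  obtain ⟨a, b, rfl⟩ := List.append_of_mem hmem
  have hp : (a ++ b).Perm (List.range n) := by
    have h1 : (n :: (a ++ b)).Perm (n :: List.range n) := by
      refine (List.perm_middle.symm.trans hl).trans ?_
      rw [List.range_succ]
      exact List.perm_append_singleton n (List.range n)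
    exact h1.cons_inv
  have hnd : (a ++ b).Nodup := hp.nodup_iff.2 List.nodup_range
  have hlt : ∀ i ∈ a ++ b, i < n := fun i hi => by
    have := hp.mem_iff.1 hi
    simpa using this
  refine ⟨((a ++ b).map sg).prod, ⟨_, hp, rfl⟩, ?_⟩
  simp only [List.map_append, List.prod_append, List.map_cons, List.prod_cons]
  by_cases hb : n - 1 ∈ b
  · right
    have ha : n - 1 ∉ a := fun ha => by
      have := List.disjoint_of_nodup_append hnd ha hb
      exact this
    rw [← mul_assoc, sg_comm' (l := a), mul_assoc]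
    intro i hi
    have h1 := hlt i (by simp [hi])
    have h2 : i ≠ n - 1 := fun h => ha (h ▸ hi)
    omega
  · left
    rw [mul_assoc, ← sg_comm' (l := b)]
    intro i hi
    have h1 := hlt i (by simp [hi])
    have h2 : i ≠ n - 1 := fun h => hb (h ▸ hi)
    omega

/-! ### Transitivity -/

theorem sg_apply {n : ℕ} (hn : 1 ≤ n) (x : ℤ) : sg n x =
    if x = n then (n : ℤ) + 1 else if x = (n : ℤ) + 1 then (n : ℤ)
    else if x = -n then -((n : ℤ) + 1) else if x = -((n : ℤ) + 1) then -(n : ℤ) else x := by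
  have h0 : n ≠ 0 := by omega
  simp only [sg, h0, if_false]
  exact nd_apply _ _ _ (by omega) (by omega)

theorem step_trans {n : ℕ} (hn : 1 ≤ n) {z : Perm ℤ} (hz : IsB n z)
    (ht : ∀ x y : ℤ, 1 ≤ |x| → |x| ≤ n → 1 ≤ |y| → |y| ≤ n → z.SameCycle x y) :
    ∀ x y : ℤ, 1 ≤ |x| → |x| ≤ (n + 1 : ℕ) → 1 ≤ |y| → |y| ≤ (n + 1 : ℕ) →
      (z * sg n).SameCycle x y := by
  set c := z * sg n with hc
  have e1 : c (n : ℤ) = (n : ℤ) + 1 := by
    rw [hc, Perm.mul_apply, sg_apply hn, if_pos rfl]
    exact hz.2 _ (by rw [abs_of_nonneg (by positivity)]; omega)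
  have e2 : c ((n : ℤ) + 1) = z n := by
    rw [hc, Perm.mul_apply, sg_apply hn, if_neg (by omega), if_pos rfl]
  have hcB : IsB (n + 1) c := isB_mul (isB_mono (Nat.le_succ n) hz) (isB_sg n)
  have e3 : c (-(n : ℤ)) = -((n : ℤ) + 1) := by rw [hcB.1, e1]
  have e4 : c (-((n : ℤ) + 1)) = z (-(n : ℤ)) := by rw [hcB.1, e2, hz.1]
  have hA : ∀ x : ℤ, c.SameCycle x (c x) := fun x => Perm.sameCycle_apply_right.2 (Perm.SameCycle.refl _ _)
  have hstep : ∀ x : ℤ, 1 ≤ |x| → |x| ≤ n → c.SameCycle x (z x) := by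
    intro x h1 h2
    by_cases hx : x = n
    · subst hx
      rw [← e2, ← e1]
      exact (hA _).trans (hA _)
    by_cases hx' : x = -n
    · subst hx'
      rw [← e4, ← e3]
      exact (hA _).trans (hA _)
    · have : c x = z x := by
        rw [hc, Perm.mul_apply, sg_apply hn, if_neg hx, if_neg, if_neg hx', if_neg]
        · have := abs_cases x
          omega
        · have := abs_cases x
          omega
      rw [← this]
      exact hA _
  have hpow : ∀ (k : ℕ) (x : ℤ), 1 ≤ |x| → |x| ≤ n → c.SameCycle x ((z ^ k) x) := by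
    intro k
    induction k with
    | zero => intro x _ _; exact Perm.SameCycle.refl _ _
    | succ k ih =>
      intro x h1 h2
      rw [pow_succ, Perm.mul_apply]
      obtain ⟨h3, h4⟩ := isB_abs hz h1 h2
      exact (hstep x h1 h2).trans (ih _ h3 h4)
  have hzz : ∀ x y : ℤ, 1 ≤ |x| → |x| ≤ n → 1 ≤ |y| → |y| ≤ n → c.SameCycle x y := by
    intro x y h1 h2 h3 h4
    obtain ⟨k, hk⟩ := ht x y h1 h2 h3 h4
    rcases Int.eq_nat_or_neg k with ⟨m, rfl | rfl⟩
    · rw [zpow_natCast] at hk
      rw [← hk]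
      exact hpow m x h1 h2
    · rw [zpow_neg, zpow_natCast, Perm.inv_eq_iff_eq] at hk
      rw [hk]
      exact (hpow m y h3 h4).symm
  have hn1 : 1 ≤ |(n : ℤ)| := by rw [abs_of_nonneg (by positivity)]; omega
  have hn2 : |(n : ℤ)| ≤ n := by rw [abs_of_nonneg (by positivity)]
  have hred : ∀ x : ℤ, 1 ≤ |x| → |x| ≤ (n + 1 : ℕ) → c.SameCycle (n : ℤ) x := by
    intro x h1 h2
    rcases lt_or_ge (n : ℤ) |x| with h | h
    · have h3 : x = (n : ℤ) + 1 ∨ x = -((n : ℤ) + 1) := by
        have := abs_cases x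
        push_cast at h2
        omega
      rcases h3 with h3 | h3
      · rw [h3, ← e1]
        exact hA _
      · rw [h3, ← e3]
        refine Perm.SameCycle.trans (hzz n (-n) hn1 hn2 (by rw [abs_neg]; exact hn1)
          (by rw [abs_neg]; exact hn2)) (hA _)
    · exact hzz _ _ hn1 hn2 h1 h
  intro x y h1 h2 h3 h4
  exact (hred x h1 h2).symm.trans (hred y h3 h4)

theorem cox_one {c : Perm ℤ} (h : IsCox 1 c) : c = sg 0 := by
  obtain ⟨l, hl, rfl⟩ := h
  have : l = [0] := by
    rw [List.range_one] at hl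
    exact List.perm_singleton.1 hl
  subst this
  simp

theorem trans_cycle (n : ℕ) : ∀ c : Perm ℤ, IsCox n c → IsB n c ∧
    ∀ x y : ℤ, 1 ≤ |x| → |x| ≤ n → 1 ≤ |y| → |y| ≤ n → c.SameCycle x y := by
  induction n with
  | zero =>
    rintro c ⟨l, hl, rfl⟩
    refine ⟨isB_prod fun i hi => by have := hl.mem_iff.1 hi; simp at this, ?_⟩
    intro x y h1 h2
    push_cast at h2
    omega
  | succ n ih =>
    intro c hc
    rcases Nat.eq_zero_or_pos n with rfl | hn
    · rw [cox_one hc]
      refine ⟨isB_sg 0, ?_⟩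
      have h0 : ∀ x : ℤ, 1 ≤ |x| → |x| ≤ (0 + 1 : ℕ) → (sg 0).SameCycle 1 x := by
        intro x h1 h2
        have h3 : x = 1 ∨ x = -1 := by
          have := abs_cases x
          push_cast at h2
          omega
        rcases h3 with rfl | rfl
        · exact Perm.SameCycle.refl _ _
        · have : sg 0 1 = -1 := by simp [sg, df_apply]
          rw [← this]
          exact Perm.sameCycle_apply_right.2 (Perm.SameCycle.refl _ _)
      intro x y h1 h2 h3 h4
      exact (h0 x h1 h2).symm.trans (h0 y h3 h4)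
    · obtain ⟨z, hz, h⟩ := shape hn hc
      obtain ⟨hzB, hzt⟩ := ih z hz
      have hst := step_trans hn hzB hzt
      rcases h with rfl | rfl
      · exact ⟨isB_mul (isB_mono (Nat.le_succ n) hzB) (isB_sg n), hst⟩
      · refine ⟨isB_mul (isB_sg n) (isB_mono (Nat.le_succ n) hzB), ?_⟩
        intro x y h1 h2 h3 h4
        have e : sg n * z = sg n * (z * sg n) * (sg n)⁻¹ := by group
        rw [e, Perm.sameCycle_conj]
        have hi := isB_inv (isB_sg n)
        obtain ⟨h5, h6⟩ := isB_abs hi h1 h2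
        obtain ⟨h7, h8⟩ := isB_abs hi h3 h4
        exact hst _ _ h5 h6 h7 h8

/-- brick TRANS -/
theorem trans : StmTrans := by
  intro n c hc
  obtain ⟨hB, ht⟩ := trans_cycle n c hc
  refine ⟨hB, ?_⟩
  intro x y h1 h2 h3 h4
  obtain ⟨k, hk⟩ := ht x y h1 h2 h3 h4
  -- the orbit of `y` is finite
  have hall : ∀ (i : ℕ), 1 ≤ |(c ^ i) x| ∧ |(c ^ i) x| ≤ n := by
    intro i
    induction i with
    | zero => exact ⟨h1, h2⟩
    | succ i ih =>
      rw [pow_succ', Perm.mul_apply]
      exact isB_abs hB ih.1 ih.2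
  obtain ⟨i, j, hij, he⟩ : ∃ i j : ℕ, i < j ∧ (c ^ i) x = (c ^ j) x := by
    have hfin : (Set.Icc (-(n : ℤ)) n).Finite := Set.finite_Icc _ _
    have hmaps : Set.MapsTo (fun i : ℕ => (c ^ i) x) Set.univ (Set.Icc (-(n : ℤ)) n) := by
      intro i _
      have := (hall i).2
      rw [abs_le] at this
      exact ⟨this.1, this.2⟩
    obtain ⟨i, _, j, _, hne, he⟩ := Set.infinite_univ.exists_ne_map_eq_of_mapsTo hmaps hfin
    rcases lt_or_gt_of_ne hne with h | h
    · exact ⟨i, j, h, he⟩
    · exact ⟨j, i, h, he.symm⟩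
  have hper : (c ^ (j - i)) x = x := by
    have h5 : (c ^ j) x = (c ^ i) ((c ^ (j - i)) x) := by
      rw [← Perm.mul_apply, ← pow_add]
      congr 2
      omega
    rw [h5] at he
    exact ((c ^ i).injective he).symm
  set p := j - i with hp
  have hp1 : 1 ≤ p := by omega
  have hperm : ∀ m : ℕ, (c ^ (p * m)) x = x := by
    intro m
    induction m with
    | zero => simp
    | succ m ih =>
      rw [mul_add, mul_one, pow_add, Perm.mul_apply, hper, ih]
  rcases Int.eq_nat_or_neg k with ⟨m, rfl | rfl⟩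
  · exact ⟨m, by rw [zpow_natCast] at hk; exact hk⟩
  · refine ⟨p * m - m, ?_⟩
    rw [zpow_neg, zpow_natCast, Perm.inv_eq_iff_eq] at hk
    have hle : m ≤ p * m := Nat.le_mul_of_pos_left m hp1
    have h6 : (c ^ m) ((c ^ (p * m - m)) x) = (c ^ m) y := by
      rw [← Perm.mul_apply, ← pow_add, ← hk]
      have : m + (p * m - m) = p * m := by omega
      rw [this, hperm]
    exact (c ^ m).injective h6

/-! ### Conjugacy -/

/-- an elementary move -/
def Mv (n : ℕ) (z z' : Perm ℤ) : Prop := ∃ (i : ℕ) (w : List ℕ), (i :: w).Perm (List.range n) ∧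
  z = sg i * (w.map sg).prod ∧ z' = (w.map sg).prod * sg i

theorem mv_step {n : ℕ} (hn : 1 ≤ n) {z z' : Perm ℤ} (h : Mv n z z') :
    Relation.EqvGen (Mv (n + 1)) (z * sg n) (z' * sg n) := by
  obtain ⟨i, w, hp, rfl, rfl⟩ := h
  have hmem : ∀ j ∈ i :: w, j < n := fun j hj => by
    have := hp.mem_iff.1 hj
    simpa using this
  have hnd : (i :: w).Nodup := hp.nodup_iff.2 List.nodup_range
  have hp1 : (i :: (w ++ [n])).Perm (List.range (n + 1)) := by
    rw [List.range_succ, ← List.cons_append]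
    exact hp.append_right _
  have hm1 : Mv (n + 1) (sg i * (w.map sg).prod * sg n) ((w.map sg).prod * sg n * sg i) :=
    ⟨i, w ++ [n], hp1, by simp [mul_assoc], by simp [mul_assoc]⟩
  by_cases hi : i = n - 1
  · have hw : ∀ j ∈ w, j + 2 ≤ n := by
      intro j hj
      have h1 := hmem j (by simp [hj])
      have h2 : j ≠ i := by
        rintro rfl
        exact (List.nodup_cons.1 hnd).1 hj
      omega
    have hcomm := sg_comm' hw
    rw [hcomm] at hm1
    have hp2 : (n :: (w ++ [i])).Perm (List.range (n + 1)) := by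
      refine List.Perm.trans ?_ hp1
      refine (List.perm_append_singleton i w).cons n |>.trans ?_
      refine (List.Perm.swap i n w).trans ?_
      exact ((List.perm_append_singleton n w).symm.cons i)
    have hm2 : Mv (n + 1) (sg n * (w.map sg).prod * sg i) ((w.map sg).prod * sg i * sg n) :=
      ⟨n, w ++ [i], hp2, by simp [mul_assoc], by simp [mul_assoc]⟩
    exact (Relation.EqvGen.rel _ _ hm1).trans _ _ _ (Relation.EqvGen.rel _ _ hm2)
  · have hi2 : i + 1 < n := by
      have := hmem i (by simp)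
      omega
    have hc : sg i * sg n = sg n * sg i := sg_comm (isB_sg i) hi2
    rw [mul_assoc _ (sg n) (sg i), ← hc, ← mul_assoc] at hm1
    exact Relation.EqvGen.rel _ _ hm1

theorem mv_cs (n : ℕ) : ∀ c : Perm ℤ, 1 ≤ n → IsCox n c → Relation.EqvGen (Mv n) c (cs n) := by
  induction n with
  | zero => intro c h; omega
  | succ n ih =>
    intro c _ hc
    rcases Nat.eq_zero_or_pos n with rfl | hn
    · rw [cox_one hc]
      have : cs (0 + 1) = sg 0 := by simp [cs]
      rw [this]
      exact Relation.EqvGen.refl _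
    · obtain ⟨z, hz, h⟩ := shape hn hc
      have h1 : Relation.EqvGen (Mv (n + 1)) (z * sg n) (cs n * sg n) := by
        have h2 := ih z hn hz
        clear h hc hz
        generalize cs n = d at h2
        induction h2 with
        | rel x y h => exact mv_step hn h
        | refl x => exact Relation.EqvGen.refl _
        | symm x y _ ih => exact Relation.EqvGen.symm _ _ ih
        | trans x y z _ _ ih1 ih2 => exact Relation.EqvGen.trans _ _ _ ih1 ih2
      have h3 : cs n * sg n = cs (n + 1) := by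
        simp [cs, List.range_succ]
      rw [h3] at h1
      rcases h with rfl | rfl
      · exact h1
      · refine Relation.EqvGen.trans _ _ _ (Relation.EqvGen.rel _ _ ?_) h1
        obtain ⟨l, hl, rfl⟩ := hz
        refine ⟨n, l, ?_, rfl, rfl⟩
        rw [List.range_succ]
        exact (hl.cons n).trans (List.perm_append_singleton n (List.range n)).symm

/-- brick CONJ -/
theorem conj : StmConj := by
  intro n c hn hc
  have h := mv_cs n c hn hc
  clear hc
  generalize cs n = d at h
  induction h with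
  | rel x y h =>
    obtain ⟨i, w, hp, rfl, rfl⟩ := h
    have hi : i < n := by
      have := hp.mem_iff.1 (List.mem_cons_self)
      simpa using this
    exact ⟨sg i, isB_mono hi (isB_sg i), by group⟩
  | refl x => exact ⟨1, isB_one n, by simp⟩
  | symm x y _ ih =>
    obtain ⟨g, hg, rfl⟩ := ih
    exact ⟨g⁻¹, isB_inv hg, by group⟩
  | trans x y z _ _ ih1 ih2 =>
    obtain ⟨g, hg, rfl⟩ := ih1
    obtain ⟨h, hh, rfl⟩ := ih2
    exact ⟨g * h, isB_mul hg hh, by group⟩

end Pool.Agent.K3h48.Hz
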